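import Mathlib

set_option autoImplicit false

namespace Pool.Agent.Results.MP_9e9eb1_al.NoH

theorem result : ∃ (n : ℕ) (B : Fin n → Fin n → Fin n → ℝ), 1 ≤ n ∧
    (∀ i j k, B i j k = B j i k ∧ B i j k = B i k j) ∧
    (∀ i, 0 ≤ ∑ j, ∑ k, B i j k ∧
      ∀ j k, (j, k) ≠ (i, i) → B i j k ≤ (∑ j, ∑ k, B i j k) / (n : ℝ) ^ 2) ∧
    ¬ ∃ (l : ℝ) (x : Fin n → ℝ), x ≠ 0 ∧ ∀ i, ∑ j, ∑ k, B i j k * x j * x k = l * x i ^ 2 := by
  refine ⟨2, ![![![6, -1], ![-1, 1]], ![![-1, 1], ![1, 3]]], by norm_num, ?_, ?_, ?_⟩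
  · intro i j k; fin_cases i <;> fin_cases j <;> fin_cases k <;> simp
  · intro i
    refine ⟨by fin_cases i <;> norm_num [Fin.sum_univ_two], fun j k h => ?_⟩
    fin_cases i <;> fin_cases j <;> fin_cases k <;> first | exact absurd rfl h | norm_num [Fin.sum_univ_two]
  · rintro ⟨l, x, hx, h⟩
    have h0 := h 0
    have h1 := h 1
    simp [Fin.sum_univ_two] at h0 h1
    have e : (x 0 ^ 2 - x 0 * x 1 + x 1 ^ 2) ^ 2 = 0 := by
      linear_combination x 1 ^ 2 * h0 - x 0 ^ 2 * h1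
    have e := pow_eq_zero_iff two_ne_zero |>.1 e
    refine hx (funext fun i => ?_)
    fin_cases i <;> simp <;> nlinarith [sq_nonneg (x 0 - x 1), sq_nonneg (x 0), sq_nonneg (x 1)]

end Pool.Agent.Results.MP_9e9eb1_al.NoH
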